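import Pool.Agent.Helper72.LSr.S4

/-!
# LR-S5d: `case2_two`
-/

namespace Pool.Agent.Helper41.LSr

open Finset
open scoped Classical
open Pool.Agent.Helper72.LSr

variable {V : Type} {j : ℕ} {G : SimpleGraph V} {S : Finset V} {k A B : ℕ}

/-- a maximizer of `Y / D` -/
theorem exists_ratio_max {V : Type} (S : Finset V) (hS : S.Nonempty) (Y D : V → ℤ)
    (hD : ∀ v ∈ S, 1 ≤ D v) : ∃ w ∈ S, ∀ v ∈ S, Y v * D w ≤ Y w * D v := by
  obtain ⟨w, hw, hmax⟩ := exists_max_image S (fun v => (Y v : ℚ) / D v) hS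
  refine ⟨w, hw, fun v hv => ?_⟩
  have h := hmax v hv
  have h1 : (0 : ℚ) < D v := by exact_mod_cast (by linarith [hD v hv] : (0 : ℤ) < D v)
  have h2 : (0 : ℚ) < D w := by exact_mod_cast (by linarith [hD w hw] : (0 : ℤ) < D w)
  rw [div_le_div_iff₀ h1 h2] at h
  exact_mod_cast h

/-- (II.2) -/
theorem case2_two (h : CE V j G S k A (B + 1)) (hY : ∀ v ∈ S, Yv k A (B + 1) G S v ≤ -1)
    (case2_D : ∀ v ∈ S, gS k A (B + 1) G S + 2 ≤ Dv k A (B + 1) G S v)
    (case2_Y : ∀ v ∈ S, Dv k A (B + 1) G S v ≤ MS k A (B + 1) S + 1 + gS k A (B + 1) G S →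
      gS k A (B + 1) G S + 1 ≤ Yv k (A + 1) B G S v) :
    ∃ w, ML V j G S k A B w := by
  -- the quantities of the upper line
  have eD : ∀ v, Dv k A (B + 1) G S v = Dv k (A + 1) B G S v + 1 := Dv_low G S k A B
  have eY : ∀ v, Yv k A (B + 1) G S v = Yv k (A + 1) B G S v - Dv k (A + 1) B G S v :=
    Yv_low G S k A B
  have ec : ∀ u v, cv k A (B + 1) G S u v = cv k (A + 1) B G S u v + 1 := cv_low G S k A B
  have eM : MS k A (B + 1) S = MS k (A + 1) B S + 1 := MS_low S k A B
  have eg : gS k A (B + 1) G S = - rS k (A + 1) B G S := gS_low G S k A B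
  have eP := Phi_low G S k A B (j + 1)
  have hl := es_nonneg k A B (j + 1)
  have hg0 := h.hg
  have hMk := h.hM
  have hr := h.hr
  have hsum := rS_add_gS G S k A (B + 1)
  have hP := h.hP
  set g := gS k A (B + 1) G S with hgdef
  have er : rS k (A + 1) B G S = - g := by linarith
  -- positivity
  have hD : ∀ v ∈ S, g + 1 ≤ Dv k (A + 1) B G S v := by
    intro v hv
    have h1 := case2_D v hv
    have h2 := eD v
    linarith
  have hD1 : ∀ v ∈ S, 1 ≤ Dv k (A + 1) B G S v := fun v hv => by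
    have := hD v hv
    linarith
  have hE : ∀ v ∈ S, Yv k (A + 1) B G S v + 1 ≤ Dv k (A + 1) B G S v := by
    intro v hv
    have h1 := hY v hv
    rw [eY] at h1
    linarith
  have hc : ∀ u ∈ S, ∀ v ∈ S, G.Adj u v → 0 ≤ cv k (A + 1) B G S u v := by
    intro u hu v hv huv
    have h1 := cl_b h hu (by have := case2_D u hu; linarith) (by have := hY u hu; linarith) v
      ((mem_nb G).2 ⟨hv, huv⟩)
    rw [ec] at h1
    linarith
  -- some vertex with small `D`
  obtain ⟨v0, hv0, hv0D⟩ : ∃ v ∈ S, Dv k A (B + 1) G S v ≤ MS k A (B + 1) S := by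
    by_contra hcon
    push Not at hcon
    have h1 := id_sumD G S k A (B + 1)
    have h2 : ∑ v ∈ S, (MS k A (B + 1) S + 1 - Dv k A (B + 1) G S v) ≤ 0 := by
      apply sum_nonpos
      intro v hv
      have := hcon v hv
      linarith
    rw [h1] at h2
    have h3 : (0 : ℤ) ≤ A * k := by positivity
    have h4 : 0 ≤ (k - MS k A (B + 1) S) * (MS k A (B + 1) S + 1) := by
      apply mul_nonneg <;> linarith
    linarith
  have hY0 : g + 1 ≤ Yv k (A + 1) B G S v0 := case2_Y v0 hv0 (by linarith)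
  -- the maximizer
  obtain ⟨w, hw, hmax⟩ := exists_ratio_max S ⟨v0, hv0⟩ (Yv k (A + 1) B G S)
    (Dv k (A + 1) B G S) hD1
  have hYw : 1 ≤ Yv k (A + 1) B G S w := by
    have h1 := hmax v0 hv0
    have h2 := hD1 v0 hv0
    have h3 := hD1 w hw
    by_contra hcon
    push Not at hcon
    have h4 : Yv k (A + 1) B G S w ≤ 0 := by linarith
    nlinarith
  -- `N_w`
  have hcard : (nb G S w).card < S.card :=
    card_lt_card (Finset.ssubset_iff_subset_ne.2 ⟨nb_subset G S w, fun e => not_mem_nb_self G S w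
      (by rw [e]; exact hw)⟩)
  have egw := gS_nb G S k A B w
  have erw := rS_nb G S k A B w
  have hEw := hE w hw
  have hPL : 0 ≤ Phi k A B (j + 2) G (nb G S w) :=
    Phi_nonneg (fun m => h.th2 _ m (by exact_mod_cast hcard)) h.hk (by linarith) (by linarith)
  have hkap : 0 ≤ Phi k A B (j + 1) G (nb G S w) :=
    Phi_nonneg (fun m => h.th1 _ m) h.hk (by linarith) (by linarith)
  -- (1')
  obtain ⟨f, hf, -⟩ := exists_order (NH G S w) (fun _ => 0)
  have h1 := id_one' hw k A B j f hf
  have hterm : ∀ u ∈ NH G S w,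
      0 ≤ Dv k (A + 1) B G S w * con k A B j G S u (Qf G (NH G S w) f u)
        + es k A B (j + 1) * (Yv k (A + 1) B G S w * Dv k (A + 1) B G S u
          - Dv k (A + 1) B G S w * Yv k (A + 1) B G S u) := by
    intro u hu
    have huS : u ∈ S := (mem_filter.1 hu).1
    have hQ : Qf G (NH G S w) f u ⊆ nb G S u := by
      intro x hx
      unfold Qf NH at hx
      rw [mem_filter, mem_filter] at hx
      exact (mem_nb G).2 ⟨hx.1.1, hx.2.1⟩
    have hs : 0 ≤ sq k (A + 1) B G S u (Qf G (NH G S w) f u) := by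
      unfold Pool.Agent.Helper72.LSr.sq
      have h5 : 0 ≤ ∑ x ∈ Qf G (NH G S w) f u, cv k (A + 1) B G S u x := by
        apply sum_nonneg
        intro x hx
        have hx' := (mem_nb G).1 (hQ hx)
        exact hc u huS x hx'.1 hx'.2
      have h6 := K_nonneg G (Qf G (NH G S w) f u) 2
      linarith
    have h5 := con_ge_min (j := j) (B := B) h.th1 h.hk huS hQ hs (by have := hE u huS; linarith)
      (by have := hD1 u huS; linarith)
    have h6 := hmax u huS
    have h7 := hD1 w hw
    have h8 := hD1 u huS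
    have h9 : Dv k (A + 1) B G S w * (es k A B (j + 1) *
        min (sq k (A + 1) B G S u (Qf G (NH G S w) f u)) (Yv k (A + 1) B G S u)) ≤
        Dv k (A + 1) B G S w * con k A B j G S u (Qf G (NH G S w) f u) :=
      mul_le_mul_of_nonneg_left h5 (by linarith)
    have h10 : 0 ≤ Dv k (A + 1) B G S w *
        min (sq k (A + 1) B G S u (Qf G (NH G S w) f u)) (Yv k (A + 1) B G S u) +
        (Yv k (A + 1) B G S w * Dv k (A + 1) B G S u
          - Dv k (A + 1) B G S w * Yv k (A + 1) B G S u) := by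
      rcases min_choice (sq k (A + 1) B G S u (Qf G (NH G S w) f u)) (Yv k (A + 1) B G S u)
        with e | e
      · rw [e]
        have : 0 ≤ Dv k (A + 1) B G S w * sq k (A + 1) B G S u (Qf G (NH G S w) f u) :=
          mul_nonneg (by linarith) hs
        linarith
      · rw [e]
        have : 0 ≤ Yv k (A + 1) B G S w * Dv k (A + 1) B G S u :=
          mul_nonneg (by linarith) (by linarith)
        linarith
    have h11 := mul_nonneg hl h10
    linarith
  have hsumterm := sum_nonneg hterm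
  rw [sum_add_distrib, ← mul_sum, ← mul_sum] at hsumterm
  set YY := Yv k (A + 1) B G S w with hYY
  set DD := Dv k (A + 1) B G S w with hDD
  set mm := K G (NH G S w) 2 with hmm
  set lam := es k A B (j + 1) with hlam
  have hDw : 1 ≤ DD := hD1 w hw
  have eQ : - Phi k (A + 1) B (j + 2) G S = - Phi k A (B + 1) (j + 2) G S + lam * g := by
    rw [er] at eP
    linarith
  have hQ : 1 + lam * g ≤ - Phi k (A + 1) B (j + 2) G S := by linarith
  rw [er] at h1
  have hmain : DD * (1 + lam * g) ≤ lam * YY * (DD - YY + g - mm) := by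
    have h2 : DD * (1 + lam * g) ≤ DD * (- Phi k (A + 1) B (j + 2) G S +
        Phi k A B (j + 2) G (nb G S w) + Phi k A B (j + 1) G (nb G S w)) :=
      mul_le_mul_of_nonneg_left (by linarith) (by linarith)
    have h3 : DD - YY + g - mm = DD - YY - -g - mm := by ring
    rw [h3, ← h1]
    linarith
  -- `Z ≥ 1 + g`
  have hZ : 1 + g ≤ DD - YY + g - mm := by
    by_contra hcon
    push Not at hcon
    have h2 : DD - YY + g - mm ≤ g := by linarith
    have h3 : lam * YY * (DD - YY + g - mm) ≤ lam * YY * g :=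
      mul_le_mul_of_nonneg_left h2 (mul_nonneg hl (by linarith))
    have h4 : lam * g * YY ≤ lam * g * DD :=
      mul_le_mul_of_nonneg_left (by linarith) (mul_nonneg hl hg0)
    linarith
  have hE4 := id_E4 G S hw k (A + 1) B
  have hq0 : 0 ≤ ∑ y ∈ NH G S w, ((Qs G S w y).card : ℤ) :=
    sum_nonneg fun y _ => Int.natCast_nonneg _
  rw [er] at hE4
  have hX : DD ≤ MS k (A + 1) B S + 1 := by
    by_contra hcon
    push Not at hcon
    by_cases hX2 : DD ≤ MS k (A + 1) B S + 1 + g
    · have h2 : g + 1 ≤ YY := case2_Y w hw (by rw [eD, eM]; linarith)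
      have h3 : (1 - (DD - MS k (A + 1) B S)) * DD ≤ -1 * DD :=
        mul_le_mul_of_nonneg_right (by linarith) (by linarith)
      linarith
    · push Not at hX2
      have h3 : (1 - (DD - MS k (A + 1) B S)) * DD ≤ (-1 - g) * DD :=
        mul_le_mul_of_nonneg_right (by linarith) (by linarith)
      have h4 : g * 1 ≤ g * DD := mul_le_mul_of_nonneg_left hDw hg0
      linarith
  have hYg : g + 1 ≤ YY := case2_Y w hw (by rw [eD, eM]; linarith)
  have hmaxg : max (-(rS k (A + 1) B G S)) 0 = g := by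
    rw [er, neg_neg, max_eq_left hg0]
  refine ⟨w, ⟨h.hk, h.th1, h.th2, ?_, hD1, hE, hc, hw, hmax, ?_, hX, ?_, ?_⟩⟩
  · rw [hmaxg]; exact hQ
  · rw [hmaxg]; linarith
  · right
    constructor
    · rw [er]; linarith
    · linarith
  · intro v hv hneg
    right
    by_contra hcon
    push Not at hcon
    have h2 : g + 1 ≤ Yv k (A + 1) B G S v := case2_Y v hv (by rw [eD, eM]; linarith)
    linarith

end Pool.Agent.Helper41.LSr
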